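import Pool.Agent.H71.WE.Targets

/-!
# Row D0 of the board WE: no connectivity, at most one demand
-/

set_option autoImplicit false

open Finset Pool.Agent.H71.WE

namespace Pool.Agent.H69.WE

/-- **Row D0.** -/
theorem pf_D0 (h1 : T_CUX) : T_D0 := by
  intro V E I _ _ _ _ G A a b J hD
  obtain ⟨-, -, hJ, hev⟩ := hD
  rcases Finset.eq_empty_or_nonempty J with hE | ⟨i, hi⟩
  · subst hE
    refine ⟨fun _ => ∅, ?_, ?_, ?_⟩
    · intro i hi; exact absurd hi (notMem_empty i)
    · intro i hi; exact absurd hi (notMem_empty i)
    · intro i hi; exact absurd hi (notMem_empty i)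
  · have hJi : J = {i} := by
      apply Finset.eq_singleton_iff_unique_mem.2
      refine ⟨hi, fun j hj => ?_⟩
      exact Finset.card_le_one.1 (by simpa using hJ) j hj i hi
    subst hJi
    refine ⟨fun _ => A, fun _ _ => Subset.refl A, ?_, ?_⟩
    · intro j hj k hk hjk
      rw [mem_singleton] at hj hk
      exact absurd (hj.trans hk.symm) hjk
    · intro j hj
      rw [mem_singleton] at hj
      subst hj
      intro X ha hb
      by_contra hc
      have h0 : cn G A X = 0 := by
        unfold cn
        rw [card_eq_zero, filter_eq_empty_iff]
        intro e he hcr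
        exact hc ⟨e, he, hcr⟩
      obtain ⟨-, -, hpar⟩ := h1 V E G A
      have h2 := hpar X
      rw [h0, zero_add] at h2
      have h3 : Even (∑ v ∈ X, (cn G A {v} + tk a b {j} v)) := by
        apply Finset.even_sum
        intro v _
        exact hev v
      rw [sum_add_distrib] at h3
      have h4 : ∑ v ∈ X, tk a b {j} v = 1 := by
        unfold tk
        rw [sum_add_distrib]
        have e1 : ∑ v ∈ X, (({j} : Finset I).filter (fun i => a i = v)).card = 1 := by
          have e2 : ∀ v ∈ X, (({j} : Finset I).filter (fun i => a i = v)).card =
              if a j = v then 1 else 0 := by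
            intro v _
            rw [filter_singleton]
            split_ifs <;> simp
          rw [sum_congr rfl e2, sum_ite_eq, if_pos ha]
        have e3 : ∑ v ∈ X, (({j} : Finset I).filter (fun i => b i = v)).card = 0 := by
          have e2 : ∀ v ∈ X, (({j} : Finset I).filter (fun i => b i = v)).card =
              if b j = v then 1 else 0 := by
            intro v _
            rw [filter_singleton]
            split_ifs <;> simp
          rw [sum_congr rfl e2, sum_ite_eq, if_neg hb]
        rw [e1, e3]
      rw [h4] at h3
      rw [Nat.even_add_one] at h3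
      exact h3 h2

end Pool.Agent.H69.WE
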