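import Pool.Agent.H71.WE.Targets

/-!
# Row G0 of the board WE: the case of an end of large degree
-/

set_option autoImplicit false

open Finset Pool.Agent.H71.WE

namespace Pool.Agent.H69.WE

/-- **Row G0.** -/
theorem pf_G0 (h1 : T_ADX) (h2 : T_SP1) (h3 : T_G0T) (h4 : T_G0Q) : T_G0 := by
  intro V E _ _ _ G A r u v a b e t hG hdeg hI
  have hG' := hG
  obtain ⟨hr, hEc, he, ht, het, huv, hab, hJe, hJt⟩ := hG'
  obtain ⟨q, hq, hqe, x, hxv, hJq, hcut⟩ := h1 V E G A (r + 2) v (by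
    obtain ⟨k, hk⟩ := hr
    exact ⟨k + 1, by omega⟩) hEc (by omega) e he u (jn_symm hJe) huv
  obtain ⟨hsp, -⟩ := h2 V E G A v u x e q he hq hqe (jn_symm hJe) hJq huv hxv
  have hEc' : Ec (spl G e u x) (A.erase q) (r + 2) := by
    intro X hX1 hX2
    have hX := hsp X
    have h5 := hEc X hX1 hX2
    by_cases hc : (v ∈ X ∧ u ∉ X ∧ x ∉ X) ∨ (v ∉ X ∧ u ∈ X ∧ x ∈ X)
    · rw [if_pos hc] at hX
      rcases hc with ⟨hv, hu, hx⟩ | ⟨hv, hu, hx⟩
      · have h6 := hcut Xᶜ (by simpa using hv) (mem_compl.2 hu) (mem_compl.2 hx)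
        rw [cn_compl] at h6
        omega
      · have h6 := hcut X hv hu hx
        omega
    · rw [if_neg hc] at hX
      omega
  by_cases hqt : q = t
  · subst hqt
    have hcase : (a = v ∧ b = x) ∨ (a = x ∧ b = v) := by
      rcases hJq with ⟨e1, e2⟩ | ⟨e1, e2⟩ <;> rcases hJt with ⟨e3, e4⟩ | ⟨e3, e4⟩
      · exact Or.inl ⟨e3.symm.trans e1, e4.symm.trans e2⟩
      · exact Or.inr ⟨e4.symm.trans e2, e3.symm.trans e1⟩
      · exact Or.inr ⟨e3.symm.trans e1, e4.symm.trans e2⟩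
      · exact Or.inl ⟨e4.symm.trans e2, e3.symm.trans e1⟩
    rcases hcase with ⟨e1, e2⟩ | ⟨e1, e2⟩
    · subst e1
      subst e2
      exact h3 V E G A r u a b e q hG hEc' hI
    · subst e1
      subst e2
      exact gc_swap2 (h3 V E G A r u b a e q (gh_swap2 hG) hEc' hI)
  · exact h4 V E G A r u v a b x e t q hG hq hqe hqt hJq hxv hEc' hI

end Pool.Agent.H69.WE
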